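import Mathlib

namespace Pool.Agent.Lib.MP_71c9ee_al

/-- `N k G` is the set of `k`-tuples of elements of `G` whose normal closure is `G`. -/
def N (k : ℕ) (G : Type) [Group G] : Set (Fin k → G) :=
  {U | Subgroup.normalClosure (Set.range U) = ⊤}

/-- `d_G(G)`: the least `k ≥ 1` such that `N k G` is nonempty. -/
noncomputable def normalRank (G : Type) [Group G] : ℕ := sInf {k | 1 ≤ k ∧ (N k G).Nonempty}

/-- One elementary Andrews-Curtis transformation of a `k`-tuple of elements of `G`. -/
inductive ACMove {G : Type} [Group G] {k : ℕ} : (Fin k → G) → (Fin k → G) → Prop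
  | mulRight (U : Fin k → G) (i j : Fin k) (h : j ≠ i) :
      ACMove U (Function.update U i (U i * U j))
  | mulRightInv (U : Fin k → G) (i j : Fin k) (h : j ≠ i) :
      ACMove U (Function.update U i (U i * (U j)⁻¹))
  | mulLeft (U : Fin k → G) (i j : Fin k) (h : j ≠ i) :
      ACMove U (Function.update U i (U j * U i))
  | mulLeftInv (U : Fin k → G) (i j : Fin k) (h : j ≠ i) :
      ACMove U (Function.update U i ((U j)⁻¹ * U i))
  | inv (U : Fin k → G) (i : Fin k) : ACMove U (Function.update U i (U i)⁻¹)
  | conj (U : Fin k → G) (i : Fin k) (w : G) : ACMove U (Function.update U i (w⁻¹ * U i * w))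

/-- Two tuples are AC-equivalent if one is obtained from the other by a finite sequence of
elementary Andrews-Curtis transformations. -/
def ACEquiv {G : Type} [Group G] {k : ℕ} (U V : Fin k → G) : Prop :=
  Relation.ReflTransGen ACMove U V

/-- The componentwise image of a tuple in the abelianization. -/
def abTuple {G : Type} [Group G] {k : ℕ} (U : Fin k → G) : Fin k → Abelianization G :=
  fun i => Abelianization.of (U i)

/-- `G` satisfies the generalised Andrews-Curtis conjecture. -/
def SatisfiesGAC (G : Type) [Group G] : Prop :=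
  ∀ k : ℕ, max (normalRank G) 2 ≤ k → ∀ U ∈ N k G, ∀ V ∈ N k G,
    (ACEquiv U V ↔ ACEquiv (abTuple U) (abTuple V))

section

variable {G : Type} [Group G] {k : ℕ}

lemma ACMove.symm {U V : Fin k → G} (h : ACMove U V) : ACMove V U := by
  cases h with
  | mulRight i j hij =>
    have := ACMove.mulRightInv (Function.update U i (U i * U j)) i j hij
    simpa [Function.update_of_ne hij] using this
  | mulRightInv i j hij =>
    have := ACMove.mulRight (Function.update U i (U i * (U j)⁻¹)) i j hij
    simpa [Function.update_of_ne hij] using this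
  | mulLeft i j hij =>
    have := ACMove.mulLeftInv (Function.update U i (U j * U i)) i j hij
    simpa [Function.update_of_ne hij] using this
  | mulLeftInv i j hij =>
    have := ACMove.mulLeft (Function.update U i ((U j)⁻¹ * U i)) i j hij
    simpa [Function.update_of_ne hij] using this
  | inv i =>
    have := ACMove.inv (Function.update U i (U i)⁻¹) i
    simpa using this
  | conj i w =>
    have := ACMove.conj (Function.update U i (w⁻¹ * U i * w)) i w⁻¹
    simpa [mul_assoc] using this

lemma ACEquiv.symm {U V : Fin k → G} (h : ACEquiv U V) : ACEquiv V U := by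
  induction h with
  | refl => exact Relation.ReflTransGen.refl
  | tail _ hm ih => exact Relation.ReflTransGen.head hm.symm ih

end

/-- The lifting argument. `ι : G → K`, `π : H → K` with `range ι ≤ range π`, and a family of normal
subgroups `Z x` of `H`. The property of having a lift to `H` which, for every `x`, is not entirely
inside `Z x`, is preserved by AC-moves. -/
lemma lift_move {G : Type} [Group G] {H K X : Type*} [Group H] [Group K] (ι : G →* K) (π : H →* K)
    (hιπ : ∀ w : G, ∃ v : H, π v = ι w) (Z : X → Subgroup H) (hZ : ∀ x, (Z x).Normal) {k : ℕ}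
    {U V : Fin k → G} (h : ACMove U V)
    (hU : ∃ W : Fin k → H, (∀ a, π (W a) = ι (U a)) ∧ ∀ x, ∃ a, W a ∉ Z x) :
    ∃ W : Fin k → H, (∀ a, π (W a) = ι (V a)) ∧ ∀ x, ∃ a, W a ∉ Z x := by
  classical
  obtain ⟨W, hW, hWZ⟩ := hU
  -- general principle
  have key : ∀ (i : Fin k) (y : H) (z : G), π y = ι z →
      (∀ x, (∀ a, a ≠ i → W a ∈ Z x) → y ∈ Z x → W i ∈ Z x) →
      ∃ W' : Fin k → H, (∀ a, π (W' a) = ι (Function.update U i z a)) ∧ ∀ x, ∃ a, W' a ∉ Z x := by
    intro i y z hyz hback
    refine ⟨Function.update W i y, ?_, ?_⟩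
    · intro a
      by_cases ha : a = i
      · subst ha
        simpa using hyz
      · rw [Function.update_of_ne ha, Function.update_of_ne ha]
        exact hW a
    · intro x
      by_contra hcon
      push Not at hcon
      obtain ⟨a, ha⟩ := hWZ x
      apply ha
      have hne : ∀ a, a ≠ i → W a ∈ Z x := by
        intro b hb
        have := hcon b
        rwa [Function.update_of_ne hb] at this
      by_cases hai : a = i
      · rw [hai]
        apply hback x hne
        have := hcon i
        simpa using this
      · exact hne a hai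
  cases h with
  | mulRight i j hij =>
    apply key i (W i * W j) (U i * U j) (by rw [map_mul, map_mul, hW, hW])
    intro x h1 h2
    exact ((Z x).mul_mem_cancel_right (h1 j hij)).mp h2
  | mulRightInv i j hij =>
    apply key i (W i * (W j)⁻¹) (U i * (U j)⁻¹) (by rw [map_mul, map_mul, map_inv, map_inv, hW, hW])
    intro x h1 h2
    exact ((Z x).mul_mem_cancel_right ((Z x).inv_mem (h1 j hij))).mp h2
  | mulLeft i j hij =>
    apply key i (W j * W i) (U j * U i) (by rw [map_mul, map_mul, hW, hW])
    intro x h1 h2
    exact ((Z x).mul_mem_cancel_left (h1 j hij)).mp h2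
  | mulLeftInv i j hij =>
    apply key i ((W j)⁻¹ * W i) ((U j)⁻¹ * U i)
      (by rw [map_mul, map_mul, map_inv, map_inv, hW, hW])
    intro x h1 h2
    exact ((Z x).mul_mem_cancel_left ((Z x).inv_mem (h1 j hij))).mp h2
  | inv i =>
    apply key i (W i)⁻¹ (U i)⁻¹ (by rw [map_inv, map_inv, hW])
    intro x _ h2
    exact (Z x).inv_mem_iff.mp h2
  | conj i w =>
    obtain ⟨v, hv⟩ := hιπ w
    apply key i (v⁻¹ * W i * v) (w⁻¹ * U i * w)
      (by rw [map_mul, map_mul, map_inv, map_mul, map_mul, map_inv, hW, hv])
    intro x _ h2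
    have := (hZ x).conj_mem _ h2 v
    simpa [mul_assoc] using this

lemma lift_equiv {G : Type} [Group G] {H K X : Type*} [Group H] [Group K] (ι : G →* K)
    (π : H →* K) (hιπ : ∀ w : G, ∃ v : H, π v = ι w) (Z : X → Subgroup H)
    (hZ : ∀ x, (Z x).Normal) {k : ℕ} {U V : Fin k → G} (h : ACEquiv U V)
    (hU : ∃ W : Fin k → H, (∀ a, π (W a) = ι (U a)) ∧ ∀ x, ∃ a, W a ∉ Z x) :
    ∃ W : Fin k → H, (∀ a, π (W a) = ι (V a)) ∧ ∀ x, ∃ a, W a ∉ Z x := by
  induction h with
  | refl => exact hU
  | tail _ hm ih => exact lift_move ι π hιπ Z hZ hm ih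

end Pool.Agent.Lib.MP_71c9ee_al
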