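import Mathlib

open Matrix Matrix.SpecialLinearGroup Subgroup

namespace Pool.Agent.Lib.MP_71c9ee_al

/-- The elementary subgroup of `SL(3, A)`. -/
def E3 (A : Type*) [CommRing A] : Subgroup (SpecialLinearGroup (Fin 3) A) :=
  closure {g | ∃ (i j : Fin 3) (h : i ≠ j) (a : A), g = transvection h a}

variable {A : Type*} [CommRing A]

lemma trans_mem {i j : Fin 3} (h : i ≠ j) (a : A) : transvection h a ∈ E3 A :=
  subset_closure ⟨i, j, h, a, rfl⟩

lemma comm_trans {i j k : Fin 3} (hij : i ≠ j) (hjk : j ≠ k) (hik : i ≠ k) (a b : A) :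
    transvection hij a * transvection hjk b * (transvection hij a)⁻¹ * (transvection hjk b)⁻¹ =
      transvection hik (a * b) := by
  rw [mul_inv_eq_iff_eq_mul, mul_inv_eq_iff_eq_mul]
  apply Subtype.ext
  rw [Matrix.SpecialLinearGroup.coe_mul, Matrix.SpecialLinearGroup.coe_mul,
    Matrix.SpecialLinearGroup.coe_mul, transvection_coe, transvection_coe, transvection_coe]
  simp only [mul_add, add_mul, one_mul, mul_one, single_mul_single_same]
  have h1 : single i k (a * b) * single j k b = 0 := single_mul_single_of_ne _ _ _ _ hjk.symm _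
  have h2 : single j k b * single i j a = 0 := single_mul_single_of_ne _ _ _ _ hik.symm _
  have h3 : single i k (a * b) * single i j a = 0 := single_mul_single_of_ne _ _ _ _ hik.symm _
  rw [h1, h2, h3, zero_mul]
  abel

/-- The entries `a` such that all transvections with coefficients in `a A` lie in `H` form an
ideal. -/
def level (H : Subgroup (SpecialLinearGroup (Fin 3) A)) : Ideal A where
  carrier := {a | ∀ (r : A) (i j : Fin 3) (h : i ≠ j), transvection h (a * r) ∈ H}
  add_mem' := by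
    intro a b ha hb r i j h
    rw [add_mul, transvection_add]
    exact H.mul_mem (ha r i j h) (hb r i j h)
  zero_mem' := by
    intro r i j h
    rw [zero_mul, transvection_coeff_zero]
    exact H.one_mem
  smul_mem' := by
    intro c a ha r i j h
    have := ha (c * r) i j h
    rw [smul_eq_mul]
    convert this using 2
    ring

lemma mem_level {H : Subgroup (SpecialLinearGroup (Fin 3) A)} {a : A} :
    a ∈ level H ↔ ∀ (r : A) (i j : Fin 3) (h : i ≠ j), transvection h (a * r) ∈ H := Iff.rfl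

/-- `H` is normalised by the elementary group. -/
def ENormal (H : Subgroup (SpecialLinearGroup (Fin 3) A)) : Prop :=
  ∀ x ∈ E3 A, ∀ h ∈ H, x * h * x⁻¹ ∈ H

lemma comm_mem {H : Subgroup (SpecialLinearGroup (Fin 3) A)} (hH : ENormal H)
    {x h : SpecialLinearGroup (Fin 3) A} (hx : x ∈ E3 A) (hh : h ∈ H) :
    x * h * x⁻¹ * h⁻¹ ∈ H := H.mul_mem (hH x hx h hh) (H.inv_mem hh)

lemma comm_mem' {H : Subgroup (SpecialLinearGroup (Fin 3) A)} (hH : ENormal H)
    {x h : SpecialLinearGroup (Fin 3) A} (hx : x ∈ E3 A) (hh : h ∈ H) :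
    h * x * h⁻¹ * x⁻¹ ∈ H := by
  have := H.inv_mem (comm_mem hH hx hh)
  simpa [mul_assoc] using this

/-- If one position always works then all positions work. -/
lemma mem_level_of_pos {H : Subgroup (SpecialLinearGroup (Fin 3) A)} (hH : ENormal H) {a : A}
    {i j : Fin 3} (hij : i ≠ j) (ha : ∀ r : A, transvection hij (a * r) ∈ H) : a ∈ level H := by
  -- moving the column
  have hcol : ∀ {i j k : Fin 3} (hij : i ≠ j) (hjk : j ≠ k) (hik : i ≠ k),
      (∀ r : A, transvection hij (a * r) ∈ H) → ∀ r : A, transvection hik (a * r) ∈ H := by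
    intro i j k hij hjk hik h r
    have h1 := comm_mem' hH (trans_mem hjk (1 : A)) (h r)
    rw [comm_trans hij hjk hik, mul_one] at h1
    exact h1
  have hrow : ∀ {i j k : Fin 3} (hij : i ≠ j) (hki : k ≠ i) (hkj : k ≠ j),
      (∀ r : A, transvection hij (a * r) ∈ H) → ∀ r : A, transvection hkj (a * r) ∈ H := by
    intro i j k hij hki hkj h r
    have h1 := comm_mem hH (trans_mem hki (1 : A)) (h r)
    rw [comm_trans hki hij hkj, one_mul] at h1
    exact h1
  rw [mem_level]
  intro r p q hpq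
  revert r
  -- from (i,j) reach every (p,q)
  obtain ⟨k, hki, hkj⟩ : ∃ k : Fin 3, k ≠ i ∧ k ≠ j := by
    clear hcol hrow ha hij
    revert i j
    decide
  have hik := hcol hij hkj.symm hki.symm ha
  have hkj' := hrow hij hki hkj ha
  have hji := hcol (i := k) (j := j) (k := i) hkj (Ne.symm hij) hki hkj'
  have hjk := hrow (i := i) (j := k) (k := j) hki.symm (Ne.symm hij) hkj.symm hik
  have hji' := hcol (i := j) (j := k) (k := i) hkj.symm hki (Ne.symm hij) hjk
  have : (p = i ∧ q = j) ∨ (p = i ∧ q = k) ∨ (p = k ∧ q = j) ∨ (p = k ∧ q = i) ∨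
      (p = j ∧ q = k) ∨ (p = j ∧ q = i) := by
    clear hji' hjk hji hkj' hik hcol hrow ha
    revert i j k p q
    decide
  rcases this with ⟨rfl, rfl⟩ | ⟨rfl, rfl⟩ | ⟨rfl, rfl⟩ | ⟨rfl, rfl⟩ | ⟨rfl, rfl⟩ | ⟨rfl, rfl⟩
  · exact ha
  · exact hik
  · exact hkj'
  · exact hji
  · exact hjk
  · exact hji'

lemma mul_single_of_col {M : Matrix (Fin 3) (Fin 3) A} {i : Fin 3}
    (hM : ∀ p, M p i = (1 : Matrix (Fin 3) (Fin 3) A) p i) (q : Fin 3) (c : A) :
    M * single i q c = single i q c := by
  ext x y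
  by_cases hy : y = q
  · subst hy
    rw [Matrix.mul_single_apply_same, hM]
    by_cases hx : x = i
    · subst hx
      simp
    · rw [Matrix.one_apply_ne hx, zero_mul, Matrix.single_apply_of_row_ne (Ne.symm hx)]
  · rw [Matrix.mul_single_apply_of_ne _ _ _ _ _ hy, Matrix.single_apply_of_col_ne _ _ (Ne.symm hy)]

lemma coe_inv_mul (h : SpecialLinearGroup (Fin 3) A) : (h⁻¹).1 * h.1 = 1 := by
  rw [← Matrix.SpecialLinearGroup.coe_mul, inv_mul_cancel, Matrix.SpecialLinearGroup.coe_one]

lemma coe_mul_inv (h : SpecialLinearGroup (Fin 3) A) : h.1 * (h⁻¹).1 = 1 := by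
  rw [← Matrix.SpecialLinearGroup.coe_mul, mul_inv_cancel, Matrix.SpecialLinearGroup.coe_one]

lemma col_inv {h : SpecialLinearGroup (Fin 3) A} {i : Fin 3}
    (hh : ∀ p, h.1 p i = (1 : Matrix (Fin 3) (Fin 3) A) p i) (p : Fin 3) :
    (h⁻¹).1 p i = (1 : Matrix (Fin 3) (Fin 3) A) p i := by
  have h1 := mul_single_of_col hh i (1 : A)
  have h2 : (h⁻¹).1 * (h.1 * single i i 1) = (h⁻¹).1 * single i i 1 := by rw [h1]
  rw [← mul_assoc, coe_inv_mul, one_mul] at h2
  have h3 := congrFun (congrFun h2 p) i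
  rw [Matrix.mul_single_apply_same, mul_one] at h3
  rw [← h3]
  by_cases hx : p = i
  · subst hx; simp
  · rw [Matrix.one_apply_ne hx, Matrix.single_apply_of_row_ne (Ne.symm hx)]

/-- If `h` fixes the `i`-th basis vector, then the conjugate of an elementary matrix `e_ij` by `h`
commutes with `e_ik`. -/
lemma conj_commute {h : SpecialLinearGroup (Fin 3) A} {i j k : Fin 3} (hij : i ≠ j) (hik : i ≠ k)
    (hh : ∀ p, h.1 p i = (1 : Matrix (Fin 3) (Fin 3) A) p i) (c d : A) :
    (h * transvection hij c * h⁻¹) * transvection hik d =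
      transvection hik d * (h * transvection hij c * h⁻¹) := by
  apply Subtype.ext
  have hu : (h * transvection hij c * h⁻¹).1 = 1 + single i j c * (h⁻¹).1 := by
    rw [Matrix.SpecialLinearGroup.coe_mul, Matrix.SpecialLinearGroup.coe_mul, transvection_coe,
      mul_add, mul_one, add_mul, coe_mul_inv, mul_single_of_col hh]
  generalize h * transvection hij c * h⁻¹ = u at hu
  rw [Matrix.SpecialLinearGroup.coe_mul, Matrix.SpecialLinearGroup.coe_mul, hu, transvection_coe]
  have h1 : single i j c * (h⁻¹).1 * single i k d = 0 := by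
    rw [mul_assoc, mul_single_of_col (col_inv hh), single_mul_single_of_ne _ _ _ _ hij.symm]
  have h2 : single i k d * (single i j c * (h⁻¹).1) = 0 := by
    rw [← mul_assoc, single_mul_single_of_ne _ _ _ _ hik.symm, zero_mul]
  simp only [mul_add, add_mul, h1, h2, one_mul, mul_one, add_zero]
  abel

lemma trans_comm_col {i j k : Fin 3} (hij : i ≠ j) (hkj : k ≠ j) (a b : A) :
    transvection hij a * transvection hkj b = transvection hkj b * transvection hij a := by
  apply Subtype.ext
  rw [Matrix.SpecialLinearGroup.coe_mul, Matrix.SpecialLinearGroup.coe_mul,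
    transvection_coe, transvection_coe]
  have h1 : single i j a * single k j b = 0 := single_mul_single_of_ne _ _ _ _ hkj.symm _
  have h2 : single k j b * single i j a = 0 := single_mul_single_of_ne _ _ _ _ hij.symm _
  simp only [mul_add, add_mul, h1, h2, one_mul, mul_one, add_zero]
  abel

lemma group_identity {G : Type*} [Group G] (X Y y s g : G) {Z u : G}
    (hY : Y * y = y * Y) (hZ : X * y * X⁻¹ * y⁻¹ = Z)
    (hu : (g⁻¹ * (X * Y) * g) * y * (g⁻¹ * (X * Y) * g)⁻¹ = u) (hs : u * s = s * u) :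
    y * (s * ((X * Y) * (y⁻¹ * ((X * Y)⁻¹ * (g⁻¹ * (X * Y) * g)) * y *
      ((X * Y)⁻¹ * (g⁻¹ * (X * Y) * g))⁻¹) * (X * Y)⁻¹) * s⁻¹ *
      ((X * Y) * (y⁻¹ * ((X * Y)⁻¹ * (g⁻¹ * (X * Y) * g)) * y *
      ((X * Y)⁻¹ * (g⁻¹ * (X * Y) * g))⁻¹) * (X * Y)⁻¹)⁻¹) * y⁻¹ =
      y * s * y⁻¹ * Z⁻¹ * s⁻¹ * Z := by
  have h1 : (X * Y) * (y⁻¹ * ((X * Y)⁻¹ * (g⁻¹ * (X * Y) * g)) * y *
      ((X * Y)⁻¹ * (g⁻¹ * (X * Y) * g))⁻¹) * (X * Y)⁻¹ = y⁻¹ * Z⁻¹ * u := by
    have h2 : (X * Y) * y⁻¹ * (X * Y)⁻¹ = y⁻¹ * Z⁻¹ := by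
      rw [← hZ]
      have h3 : Y * y⁻¹ * Y⁻¹ = y⁻¹ := by
        have h4 : y * Y * y⁻¹ = Y := by rw [← hY]; group
        calc Y * y⁻¹ * Y⁻¹ = y⁻¹ * (y * Y * y⁻¹) * Y⁻¹ := by group
          _ = y⁻¹ := by rw [h4]; group
      calc (X * Y) * y⁻¹ * (X * Y)⁻¹ = X * (Y * y⁻¹ * Y⁻¹) * X⁻¹ := by group
        _ = X * y⁻¹ * X⁻¹ := by rw [h3]
        _ = _ := by group
    calc _ = ((X * Y) * y⁻¹ * (X * Y)⁻¹) *
        ((g⁻¹ * (X * Y) * g) * y * (g⁻¹ * (X * Y) * g)⁻¹) := by group
      _ = _ := by rw [h2, hu]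
  rw [h1]
  have hs' : u * s⁻¹ * u⁻¹ = s⁻¹ := by
    have h4 : s * u * s⁻¹ = u := by rw [← hs]; group
    calc u * s⁻¹ * u⁻¹ = s⁻¹ * (s * u * s⁻¹) * u⁻¹ := by group
      _ = s⁻¹ := by rw [h4]; group
  calc y * (s * (y⁻¹ * Z⁻¹ * u) * s⁻¹ * (y⁻¹ * Z⁻¹ * u)⁻¹) * y⁻¹
      = y * s * y⁻¹ * Z⁻¹ * (u * s⁻¹ * u⁻¹) * Z := by group
    _ = _ := by rw [hs']

/-- Extraction of an elementary matrix from an arbitrary element of `SL(3, A)`. -/
lemma extract {H : Subgroup (SpecialLinearGroup (Fin 3) A)} (hH : ENormal H)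
    {g : SpecialLinearGroup (Fin 3) A} (hg : g ∈ H) {i j k : Fin 3} (hij : i ≠ j) (hik : i ≠ k)
    (hjk : j ≠ k) (r : A) : transvection hij (g.1 j i * r) ∈ H := by
  set X := transvection hik.symm (-(g.1 j i * r)) with hX
  set Y := transvection hjk.symm (g.1 i i * r) with hYd
  set y := transvection hij (1 : A) with hy
  set s := transvection hik (1 : A) with hs
  have hXE : X ∈ E3 A := trans_mem _ _
  have hYE : Y ∈ E3 A := trans_mem _ _
  have hyE : y ∈ E3 A := trans_mem _ _
  have hsE : s ∈ E3 A := trans_mem _ _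
  have hTE : X * Y ∈ E3 A := (E3 A).mul_mem hXE hYE
  have hYy : Y * y = y * Y := trans_comm_col hjk.symm hij _ _
  have hZ : X * y * X⁻¹ * y⁻¹ = transvection hjk.symm (-(g.1 j i * r)) := by
    rw [hX, hy, comm_trans hik.symm hij hjk.symm, mul_one]
  set h := g⁻¹ * (X * Y) * g with hh
  have hcol : ∀ p, h.1 p i = (1 : Matrix (Fin 3) (Fin 3) A) p i := by
    have hTg : ∀ p, (X * Y * g).1 p i = g.1 p i := by
      intro p
      rw [mul_assoc, Matrix.SpecialLinearGroup.coe_mul]
      change (Matrix.transvection k i (-(g.1 j i * r)) * (Y * g).1) p i = _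
      by_cases hp : p = k
      · subst hp
        rw [Matrix.transvection_mul_apply_same, Matrix.SpecialLinearGroup.coe_mul]
        change (Matrix.transvection p j (g.1 i i * r) * g.1) p i +
          -(g.1 j i * r) * (Matrix.transvection p j (g.1 i i * r) * g.1) i i = _
        rw [Matrix.transvection_mul_apply_same, Matrix.transvection_mul_apply_of_ne _ _ _ _ hik]
        ring
      · rw [Matrix.transvection_mul_apply_of_ne _ _ _ _ hp, Matrix.SpecialLinearGroup.coe_mul]
        change (Matrix.transvection k j (g.1 i i * r) * g.1) p i = _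
        rw [Matrix.transvection_mul_apply_of_ne _ _ _ _ hp]
    intro p
    rw [hh, mul_assoc, Matrix.SpecialLinearGroup.coe_mul, Matrix.mul_apply]
    simp only [hTg]
    rw [← Matrix.mul_apply, coe_inv_mul]
  have hcomm := conj_commute hij hik hcol (1 : A) (1 : A)
  have hid := group_identity X Y y s g hYy hZ rfl hcomm
  have hzH : (X * Y)⁻¹ * (g⁻¹ * (X * Y) * g) ∈ H := by
    have h1 := hH _ ((E3 A).inv_mem hTE) _ (H.inv_mem hg)
    have h2 := H.mul_mem h1 hg
    simpa [mul_assoc] using h2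
  have h3 : y⁻¹ * ((X * Y)⁻¹ * (g⁻¹ * (X * Y) * g)) * y *
      ((X * Y)⁻¹ * (g⁻¹ * (X * Y) * g))⁻¹ ∈ H := by
    have := comm_mem hH ((E3 A).inv_mem hyE) hzH
    simpa using this
  have h4 := hH _ hTE _ h3
  have h5 := comm_mem hH hsE h4
  have h6 := hH _ hyE _ h5
  rw [hid] at h6
  have h7 : y * s * y⁻¹ = s := by
    have : y * s = s * y := by
      apply Subtype.ext
      rw [Matrix.SpecialLinearGroup.coe_mul, Matrix.SpecialLinearGroup.coe_mul, hy, hs,
        transvection_coe, transvection_coe]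
      have h1 : single i j (1 : A) * single i k 1 = 0 :=
        single_mul_single_of_ne _ _ _ _ hij.symm _
      have h2 : single i k (1 : A) * single i j 1 = 0 :=
        single_mul_single_of_ne _ _ _ _ hik.symm _
      simp only [mul_add, add_mul, h1, h2, one_mul, mul_one, add_zero]
      abel
    rw [this, mul_inv_cancel_right]
  rw [h7] at h6
  have h8 : s * (transvection hjk.symm (-(g.1 j i * r)))⁻¹ * s⁻¹ *
      transvection hjk.symm (-(g.1 j i * r)) = transvection hij (g.1 j i * r) := by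
    have h9 := comm_trans hik hjk.symm hij (1 : A) (g.1 j i * r)
    have h10 : (transvection hjk.symm (-(g.1 j i * r)))⁻¹ = transvection hjk.symm (g.1 j i * r) := by
      rw [transvection_inv, neg_neg]
    rw [one_mul] at h9
    rw [h10, ← transvection_inv]
    exact h9
  rw [h8] at h6
  exact h6

lemma third (i j : Fin 3) : ∃ k : Fin 3, k ≠ i ∧ k ≠ j := by
  revert i j
  decide

lemma offdiag_mem_level {H : Subgroup (SpecialLinearGroup (Fin 3) A)} (hH : ENormal H)
    {g : SpecialLinearGroup (Fin 3) A} (hg : g ∈ H) {i j : Fin 3} (hij : i ≠ j) :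
    g.1 j i ∈ level H := by
  obtain ⟨k, hki, hkj⟩ := third i j
  exact mem_level_of_pos hH hij (fun r => extract hH hg hij hki.symm hkj.symm r)

lemma diag_mem_level {H : Subgroup (SpecialLinearGroup (Fin 3) A)} (hH : ENormal H)
    {g : SpecialLinearGroup (Fin 3) A} (hg : g ∈ H) (i j : Fin 3) :
    g.1 j j - g.1 i i ∈ level H := by
  by_cases hij : i = j
  · subst hij
    rw [sub_self]
    exact (level H).zero_mem
  have h1 := hH _ (trans_mem hij (1 : A)) _ hg
  have h2 := offdiag_mem_level hH h1 (Ne.symm hij)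
  have h3 := offdiag_mem_level hH hg (Ne.symm hij)
  have h4 := offdiag_mem_level hH hg hij
  have h5 : (transvection hij (1 : A) * g * (transvection hij (1 : A))⁻¹).1 i j =
      g.1 i j + g.1 j j - g.1 i i - g.1 j i := by
    rw [transvection_inv, Matrix.SpecialLinearGroup.coe_mul]
    change ((transvection hij (1 : A) * g).1 *
      (Matrix.transvection i j (-1) : Matrix (Fin 3) (Fin 3) A)) i j = _
    rw [Matrix.mul_transvection_apply_same, Matrix.SpecialLinearGroup.coe_mul]
    change ((Matrix.transvection i j 1 : Matrix (Fin 3) (Fin 3) A) * g.1) i j +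
      -1 * ((Matrix.transvection i j 1 : Matrix (Fin 3) (Fin 3) A) * g.1) i i = _
    rw [Matrix.transvection_mul_apply_same, Matrix.transvection_mul_apply_same]
    ring
  rw [h5] at h2
  have h6 := (level H).add_mem ((level H).sub_mem h2 h3) h4
  have h7 : g.1 i j + g.1 j j - g.1 i i - g.1 j i - g.1 i j + g.1 j i = g.1 j j - g.1 i i := by
    ring
  rwa [h7] at h6

lemma E3_le_of_level_eq_top {H : Subgroup (SpecialLinearGroup (Fin 3) A)} (h : level H = ⊤) :
    E3 A ≤ H := by
  rw [E3, closure_le]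
  rintro _ ⟨i, j, hij, a, rfl⟩
  have h1 : (1 : A) ∈ level H := by rw [h]; trivial
  have := h1 a i j hij
  rwa [one_mul] at this

/-- Normal generation criterion in the elementary group `E3 A`. -/
theorem normalClosure_eq_top {ι : Type*} (U : ι → E3 A)
    (hU : Ideal.span ({a | ∃ (m : ι) (i j : Fin 3), i ≠ j ∧ a = (U m).1.1 j i} ∪
      {a | ∃ (m : ι) (i j : Fin 3), a = (U m).1.1 j j - (U m).1.1 i i}) = ⊤) :
    normalClosure (Set.range U) = ⊤ := by
  set N := normalClosure (Set.range U) with hN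
  set H : Subgroup (SpecialLinearGroup (Fin 3) A) := N.map (E3 A).subtype with hHd
  have hNn : N.Normal := normalClosure_normal
  have hH : ENormal H := by
    rintro x hx _ ⟨h, hh, rfl⟩
    have h1 := Subgroup.mem_map_of_mem (E3 A).subtype (hNn.conj_mem h hh ⟨x, hx⟩)
    rw [map_mul, map_mul, map_inv] at h1
    exact h1
  have hUH : ∀ m, (U m).1 ∈ H := fun m =>
    Subgroup.mem_map_of_mem (E3 A).subtype (subset_normalClosure ⟨m, rfl⟩)
  have hlev : level H = ⊤ := by
    rw [eq_top_iff, ← hU, Ideal.span_le]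
    rintro a (⟨m, i, j, hij, rfl⟩ | ⟨m, i, j, rfl⟩)
    · exact offdiag_mem_level hH (hUH m) hij
    · exact diag_mem_level hH (hUH m) i j
  have hle := E3_le_of_level_eq_top hlev
  rw [eq_top_iff]
  intro x _
  obtain ⟨y, hy, hyx⟩ := hle x.2
  have : y = x := Subtype.ext hyx
  rwa [← this]

/-- The elementary group is perfect. -/
theorem E3_perfect : commutator (E3 A) = ⊤ := by
  have key : E3 A ≤ (commutator (E3 A)).map (E3 A).subtype := by
    conv_lhs => rw [E3]
    rw [closure_le]
    rintro _ ⟨i, j, hij, a, rfl⟩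
    obtain ⟨k, hki, hkj⟩ := third i j
    have h1 := comm_trans hki.symm hkj hij a (1 : A)
    rw [mul_one] at h1
    rw [← h1]
    have h2 : (⟨transvection hki.symm a, trans_mem _ _⟩ : E3 A) * ⟨transvection hkj 1, trans_mem _ _⟩ *
        (⟨transvection hki.symm a, trans_mem _ _⟩ : E3 A)⁻¹ *
        (⟨transvection hkj 1, trans_mem _ _⟩ : E3 A)⁻¹ ∈ commutator (E3 A) := by
      rw [commutator_def]
      exact Subgroup.commutator_mem_commutator (mem_top _) (mem_top _)
    have h3 := Subgroup.mem_map_of_mem (E3 A).subtype h2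
    rw [map_mul, map_mul, map_mul, map_inv, map_inv] at h3
    exact h3
  rw [eq_top_iff]
  intro x _
  obtain ⟨y, hy, hyx⟩ := key x.2
  have : y = x := Subtype.ext hyx
  rwa [← this]

/-- If `A` is generated as a ring by a finite set, the elementary group is finitely generated. -/
theorem E3_fg {S : Set A} (hS : S.Finite) (hSA : Subring.closure S = ⊤) : Group.FG (E3 A) := by
  set T : Set (SpecialLinearGroup (Fin 3) A) :=
    {g | ∃ (i j : Fin 3) (h : i ≠ j) (a : A), a ∈ insert 1 S ∧ g = transvection h a} with hT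
  have hTfin : T.Finite := by
    have : T ⊆ (fun q : Fin 3 × Fin 3 × A => if h : q.1 ≠ q.2.1 then transvection h q.2.2 else 1) ''
        (Set.univ ×ˢ (Set.univ ×ˢ (insert 1 S))) := by
      rintro _ ⟨i, j, h, a, ha, rfl⟩
      exact ⟨(i, j, a), ⟨trivial, trivial, ha⟩, by simp [h]⟩
    refine Set.Finite.subset (Set.Finite.image _ ?_) this
    exact Set.finite_univ.prod (Set.finite_univ.prod (hS.insert 1))
  have hTle : closure T ≤ E3 A := by
    rw [closure_le]
    rintro _ ⟨i, j, h, a, -, rfl⟩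
    exact trans_mem h a
  set K := closure T with hK
  have hTK : ∀ (i j : Fin 3) (h : i ≠ j) (a : A), a ∈ insert 1 S → transvection h a ∈ K :=
    fun i j h a ha => subset_closure ⟨i, j, h, a, ha, rfl⟩
  clear_value K
  -- the coefficients reachable from `T` form a subring
  let B : Subring A :=
    { carrier := {a | ∀ (i j : Fin 3) (h : i ≠ j), transvection h a ∈ K}
      mul_mem' := by
        intro a b ha hb i j h
        obtain ⟨k, hki, hkj⟩ := third i j
        have h1 := comm_trans hki.symm hkj h a b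
        rw [← h1]
        have hA := ha i k hki.symm
        have hB := hb k j hkj
        exact K.mul_mem (K.mul_mem (K.mul_mem hA hB) (K.inv_mem hA)) (K.inv_mem hB)
      one_mem' := fun i j h => hTK i j h 1 (Set.mem_insert _ _)
      add_mem' := by
        intro a b ha hb i j h
        rw [transvection_add]
        exact K.mul_mem (ha i j h) (hb i j h)
      zero_mem' := by
        intro i j h
        rw [transvection_coeff_zero]
        exact K.one_mem
      neg_mem' := by
        intro a ha i j h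
        rw [← transvection_inv]
        exact K.inv_mem (ha i j h) }
  have hB : B = ⊤ := by
    rw [eq_top_iff, ← hSA, Subring.closure_le]
    intro a ha i j h
    exact hTK i j h a (Set.mem_insert_of_mem _ ha)
  have hE : E3 A = K := by
    apply le_antisymm _ hTle
    rw [E3, closure_le]
    rintro _ ⟨i, j, h, a, rfl⟩
    have : a ∈ B := by rw [hB]; trivial
    exact this i j h
  rw [Group.fg_iff_subgroup_fg, hE, hK]
  exact ⟨hTfin.toFinset, by simp⟩

end Pool.Agent.Lib.MP_71c9ee_al
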