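import Mathlib
import Pool.Agent.Lib.MP_71c9ee_al.E3

open Matrix Matrix.SpecialLinearGroup Subgroup

namespace Pool.Agent.Lib.MP_71c9ee_al

lemma list_est {R : Type*} [NormedRing R] (L : List R) :
    ‖(L.map (fun X => 1 + X)).prod - 1 - L.sum‖ ≤
      Real.exp (L.map (fun X => ‖X‖)).sum - 1 - (L.map (fun X => ‖X‖)).sum := by
  induction L with
  | nil => simp
  | cons X L ih =>
    simp only [List.map_cons, List.prod_cons, List.sum_cons]
    set P := (L.map (fun X => 1 + X)).prod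
    set S := L.sum with hS
    set s := (L.map (fun X => ‖X‖)).sum with hs
    have hSs : ‖S‖ ≤ s := by
      rw [hS, hs]
      clear_value S s P
      clear ih hS hs
      induction L with
      | nil => simp
      | cons Y L ih =>
        simp only [List.sum_cons, List.map_cons]
        exact (norm_add_le _ _).trans (by linarith)
    have h1 : (1 + X) * P - 1 - (X + S) = (P - 1 - S) + X * ((P - 1 - S) + S) := by noncomm_ring
    rw [h1]
    have h2 : ‖(P - 1 - S) + X * ((P - 1 - S) + S)‖ ≤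
        ‖P - 1 - S‖ + ‖X‖ * (‖P - 1 - S‖ + ‖S‖) := by
      refine (norm_add_le _ _).trans ?_
      gcongr
      refine (norm_mul_le _ _).trans ?_
      gcongr
      exact norm_add_le _ _
    refine h2.trans ?_
    have h3 : ‖X‖ * (‖P - 1 - S‖ + ‖S‖) ≤ ‖X‖ * (Real.exp s - 1 - s + s) := by
      gcongr
    have h4 : ‖X‖ + 1 ≤ Real.exp ‖X‖ := Real.add_one_le_exp _
    have h5 : Real.exp (‖X‖ + s) = Real.exp ‖X‖ * Real.exp s := Real.exp_add _ _
    have h6 : 0 < Real.exp s := Real.exp_pos _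
    have h7 : (‖X‖ + 1) * Real.exp s ≤ Real.exp ‖X‖ * Real.exp s := by gcongr
    rw [h5]
    nlinarith

attribute [local instance] Matrix.linftyOpNormedRing Matrix.linftyOpNormedAlgebra

lemma entry_le_norm (M : Matrix (Fin 3) (Fin 3) ℝ) (i j : Fin 3) : |M i j| ≤ ‖M‖ := by
  rw [Matrix.linfty_opNorm_def]
  have h1 : ‖M i j‖₊ ≤ ∑ j : Fin 3, ‖M i j‖₊ :=
    Finset.single_le_sum (f := fun j => ‖M i j‖₊) (fun _ _ => zero_le) (Finset.mem_univ j)
  have h2 : ∑ j : Fin 3, ‖M i j‖₊ ≤ Finset.univ.sup (fun i : Fin 3 => ∑ j : Fin 3, ‖M i j‖₊) :=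
    Finset.le_sup (f := fun i : Fin 3 => ∑ j : Fin 3, ‖M i j‖₊) (Finset.mem_univ i)
  have h3 := h1.trans h2
  rw [← Real.norm_eq_abs, ← coe_nnnorm]
  exact_mod_cast h3

lemma norm_le_of_rows (M : Matrix (Fin 3) (Fin 3) ℝ) (c : ℝ) (hc : 0 ≤ c)
    (h : ∀ i, ∑ j : Fin 3, |M i j| ≤ c) : ‖M‖ ≤ c := by
  rw [Matrix.linfty_opNorm_def]
  lift c to NNReal using hc
  norm_cast
  apply Finset.sup_le
  intro i _
  have := h i
  rw [← NNReal.coe_le_coe]
  push_cast
  simpa [Real.norm_eq_abs] using this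

section uu

variable {A B : Type*} [CommRing A] [CommRing B]

lemma h01 : (0 : Fin 3) ≠ 1 := by decide
lemma h02 : (0 : Fin 3) ≠ 2 := by decide
lemma h12 : (1 : Fin 3) ≠ 2 := by decide

/-- An eight parameter family of elementary products, a chart of `SL(3)` near `1`. -/
def uu (ξ : Fin 8 → A) : SpecialLinearGroup (Fin 3) A :=
  transvection h01 (ξ 0) * transvection h02 (ξ 1) * transvection h01.symm (ξ 2) *
  transvection h12 (ξ 3) * transvection h02.symm (ξ 4) * transvection h12.symm (ξ 5) *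
  (transvection h01 1 * transvection h01.symm (ξ 6) * transvection h01 (-1)) *
  (transvection h12 1 * transvection h12.symm (ξ 7) * transvection h12 (-1))

lemma uu_mem (ξ : Fin 8 → A) : uu ξ ∈ E3 A := by
  unfold uu
  have h : ∀ {i j : Fin 3} (h : i ≠ j) (a : A), transvection h a ∈ E3 A := fun h a => trans_mem h a
  exact (E3 A).mul_mem ((E3 A).mul_mem ((E3 A).mul_mem ((E3 A).mul_mem ((E3 A).mul_mem
    ((E3 A).mul_mem ((E3 A).mul_mem (h _ _) (h _ _)) (h _ _)) (h _ _)) (h _ _)) (h _ _))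
    ((E3 A).mul_mem ((E3 A).mul_mem (h _ _) (h _ _)) (h _ _)))
    ((E3 A).mul_mem ((E3 A).mul_mem (h _ _) (h _ _)) (h _ _))

lemma map_trans (f : A →+* B) {i j : Fin 3} (h : i ≠ j) (a : A) :
    Matrix.SpecialLinearGroup.map f (transvection h a) = transvection h (f a) := by
  apply Subtype.ext
  rw [Matrix.SpecialLinearGroup.map_apply_coe, transvection_coe, transvection_coe, map_add,
    map_one, RingHom.mapMatrix_apply, Matrix.map_single]

lemma map_uu (f : A →+* B) (ξ : Fin 8 → A) :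
    Matrix.SpecialLinearGroup.map f (uu ξ) = uu (fun b => f (ξ b)) := by
  unfold uu
  simp only [map_mul, map_trans, map_one, map_neg]

/-- The eight nilpotent matrices, a basis of the trace zero matrices. -/
def BB (A : Type*) [CommRing A] : Fin 8 → Matrix (Fin 3) (Fin 3) A :=
  ![!![0, 1, 0; 0, 0, 0; 0, 0, 0],
    !![0, 0, 1; 0, 0, 0; 0, 0, 0],
    !![0, 0, 0; 1, 0, 0; 0, 0, 0],
    !![0, 0, 0; 0, 0, 1; 0, 0, 0],
    !![0, 0, 0; 0, 0, 0; 1, 0, 0],
    !![0, 0, 0; 0, 0, 0; 0, 1, 0],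
    !![1, -1, 0; 1, -1, 0; 0, 0, 0],
    !![0, 0, 0; 0, 1, -1; 0, 1, -1]]

lemma uu_coe (ξ : Fin 8 → A) :
    (uu ξ).1 = ((List.ofFn (fun b : Fin 8 => ξ b • BB A b)).map (fun X => 1 + X)).prod := by
  have e01 : ∀ a : A, (transvection h01 a).1 = 1 + a • BB A 0 := by
    intro a
    rw [transvection_coe]
    congr 1
    ext i j
    fin_cases i <;> fin_cases j <;> simp [BB]
  have e02 : ∀ a : A, (transvection h02 a).1 = 1 + a • BB A 1 := by
    intro a
    rw [transvection_coe]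
    congr 1
    ext i j
    fin_cases i <;> fin_cases j <;> simp [BB]
  have e10 : ∀ a : A, (transvection h01.symm a).1 = 1 + a • BB A 2 := by
    intro a
    rw [transvection_coe]
    congr 1
    ext i j
    fin_cases i <;> fin_cases j <;> simp [BB]
  have e12 : ∀ a : A, (transvection h12 a).1 = 1 + a • BB A 3 := by
    intro a
    rw [transvection_coe]
    congr 1
    ext i j
    fin_cases i <;> fin_cases j <;> simp [BB]
  have e20 : ∀ a : A, (transvection h02.symm a).1 = 1 + a • BB A 4 := by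
    intro a
    rw [transvection_coe]
    congr 1
    ext i j
    fin_cases i <;> fin_cases j <;> simp [BB]
  have e21 : ∀ a : A, (transvection h12.symm a).1 = 1 + a • BB A 5 := by
    intro a
    rw [transvection_coe]
    congr 1
    ext i j
    fin_cases i <;> fin_cases j <;> simp [BB]
  have e6 : ∀ a : A, (transvection h01 1 * transvection h01.symm a * transvection h01 (-1)).1 =
      1 + a • BB A 6 := by
    intro a
    rw [Matrix.SpecialLinearGroup.coe_mul, Matrix.SpecialLinearGroup.coe_mul, e01, e10, e01]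
    ext i j
    fin_cases i <;> fin_cases j <;> simp [BB, Matrix.mul_apply, Fin.sum_univ_three]
    ring
  have e7 : ∀ a : A, (transvection h12 1 * transvection h12.symm a * transvection h12 (-1)).1 =
      1 + a • BB A 7 := by
    intro a
    rw [Matrix.SpecialLinearGroup.coe_mul, Matrix.SpecialLinearGroup.coe_mul, e12, e21, e12]
    ext i j
    fin_cases i <;> fin_cases j <;> simp [BB, Matrix.mul_apply, Fin.sum_univ_three]
    ring
  unfold uu
  simp only [List.ofFn_succ, List.ofFn_zero, List.map_cons, List.map_nil, List.prod_cons,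
    List.prod_nil]
  rw [Matrix.SpecialLinearGroup.coe_mul, e7, Matrix.SpecialLinearGroup.coe_mul, e6,
    Matrix.SpecialLinearGroup.coe_mul, e21, Matrix.SpecialLinearGroup.coe_mul, e20,
    Matrix.SpecialLinearGroup.coe_mul, e12, Matrix.SpecialLinearGroup.coe_mul, e10,
    Matrix.SpecialLinearGroup.coe_mul, e02, e01]
  simp only [mul_assoc, mul_one]
  rfl

end uu

/-- Coordinates of the trace zero part of a matrix in the basis `BB ℝ`. -/
noncomputable def phi (M : Matrix (Fin 3) (Fin 3) ℝ) : Fin 8 → ℝ :=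
  ![M 0 1 + (2 * (M 0 0 - M 1 1) + (M 1 1 - M 2 2)) / 3,
    M 0 2,
    M 1 0 - (2 * (M 0 0 - M 1 1) + (M 1 1 - M 2 2)) / 3,
    M 1 2 + ((M 0 0 - M 1 1) + 2 * (M 1 1 - M 2 2)) / 3,
    M 2 0,
    M 2 1 - ((M 0 0 - M 1 1) + 2 * (M 1 1 - M 2 2)) / 3,
    (2 * (M 0 0 - M 1 1) + (M 1 1 - M 2 2)) / 3,
    ((M 0 0 - M 1 1) + 2 * (M 1 1 - M 2 2)) / 3]

lemma sum_BB (ξ : Fin 8 → ℝ) : ∑ b : Fin 8, ξ b • BB ℝ b =
    !![ξ 6, ξ 0 - ξ 6, ξ 1; ξ 2 + ξ 6, ξ 7 - ξ 6, ξ 3 - ξ 7; ξ 4, ξ 5 + ξ 7, - ξ 7] := by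
  ext i j
  fin_cases i <;> fin_cases j <;>
    simp [Fin.sum_univ_succ, BB, Matrix.add_apply] <;> ring_nf

lemma phi_sub (M : Matrix (Fin 3) (Fin 3) ℝ) (ξ : Fin 8 → ℝ) (b : Fin 8) :
    phi M b - ξ b = phi (M - 1 - ∑ b : Fin 8, ξ b • BB ℝ b) b := by
  rw [sum_BB]
  fin_cases b <;> simp [phi] <;> ring

lemma phi_zero {M : Matrix (Fin 3) (Fin 3) ℝ} (h : phi M = 0) : M = Matrix.scalar (Fin 3) (M 0 0) := by
  have h0 := congrFun h 0
  have h1 := congrFun h 1
  have h2 := congrFun h 2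
  have h3 := congrFun h 3
  have h4 := congrFun h 4
  have h5 := congrFun h 5
  have h6 := congrFun h 6
  have h7 := congrFun h 7
  simp [phi] at h0 h1 h2 h3 h4 h5 h6 h7
  ext i j
  fin_cases i <;> fin_cases j <;> simp [Matrix.scalar_apply] <;> linarith

lemma abs_phi_le (M : Matrix (Fin 3) (Fin 3) ℝ) (b : Fin 8) : |phi M b| ≤ 3 * ‖M‖ := by
  have h := entry_le_norm M
  have h00 := abs_le.mp (h 0 0)
  have h01 := abs_le.mp (h 0 1)
  have h02 := abs_le.mp (h 0 2)
  have h10 := abs_le.mp (h 1 0)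
  have h11 := abs_le.mp (h 1 1)
  have h12 := abs_le.mp (h 1 2)
  have h20 := abs_le.mp (h 2 0)
  have h21 := abs_le.mp (h 2 1)
  have h22 := abs_le.mp (h 2 2)
  have hn : 0 ≤ ‖M‖ := norm_nonneg M
  rw [abs_le]
  fin_cases b <;> simp [phi] <;> constructor <;> linarith [h00.1, h00.2, h01.1, h01.2, h02.1,
    h02.2, h10.1, h10.2, h11.1, h11.2, h12.1, h12.2, h20.1, h20.2, h21.1, h21.2, h22.1, h22.2]

lemma norm_BB_le (b : Fin 8) : ‖BB ℝ b‖ ≤ 2 := by
  apply norm_le_of_rows _ _ (by norm_num)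
  intro i
  fin_cases b <;> fin_cases i <;> simp [BB, Fin.sum_univ_three] <;> norm_num

lemma phi_est (ξ : Fin 8 → ℝ) (hs : 2 * ∑ b, |ξ b| ≤ 1) (b : Fin 8) :
    |phi (uu ξ).1 b - ξ b| ≤ 12 * (∑ b, |ξ b|) ^ 2 := by
  rw [phi_sub]
  refine (abs_phi_le _ b).trans ?_
  have h1 := list_est (List.ofFn (fun b : Fin 8 => ξ b • BB ℝ b))
  rw [← uu_coe, List.sum_ofFn, List.map_ofFn, List.sum_ofFn] at h1
  set s := ∑ i, ((fun X : Matrix (Fin 3) (Fin 3) ℝ => ‖X‖) ∘ fun b : Fin 8 => ξ b • BB ℝ b) i with hsd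
  have h2 : s ≤ 2 * ∑ b, |ξ b| := by
    rw [hsd, Finset.mul_sum]
    apply Finset.sum_le_sum
    intro i _
    simp only [Function.comp_apply]
    rw [norm_smul, Real.norm_eq_abs, mul_comm]
    exact mul_le_mul_of_nonneg_right (norm_BB_le i) (abs_nonneg _)
  have h3 : 0 ≤ s := Finset.sum_nonneg (fun i _ => norm_nonneg _)
  have h4 := Real.abs_exp_sub_one_sub_id_le (x := s) (by rw [abs_of_nonneg h3]; linarith)
  have h5 := (le_abs_self _).trans h4
  have h6 : s ^ 2 ≤ (2 * ∑ b, |ξ b|) ^ 2 := by gcongr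
  nlinarith

lemma pos_pairing (x : Fin 8 → ℝ) (hx : ∀ b, |x b| ≤ 1) :
    (1 / 10000) * ∑ b, (x b) ^ 2 ≤ ∑ b, x b * phi (uu (fun b => (1 / 1000) * x b)).1 b := by
  have hsum : ∑ b, |(1 / 1000) * x b| = (1 / 1000) * ∑ b, |x b| := by
    rw [Finset.mul_sum]
    apply Finset.sum_congr rfl
    intro b _
    rw [abs_mul, abs_of_pos (by norm_num : (0 : ℝ) < 1 / 1000)]
  have h8 : ∑ b, |x b| ≤ 8 := by
    have := Finset.sum_le_sum (s := (Finset.univ : Finset (Fin 8))) (fun b _ => hx b)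
    simpa using this
  have hcs : (∑ b, |x b|) ^ 2 ≤ 8 * ∑ b, (x b) ^ 2 := by
    have := sq_sum_le_card_mul_sum_sq (s := (Finset.univ : Finset (Fin 8))) (f := fun b => |x b|)
    simpa using this
  set Q := ∑ b, (x b) ^ 2 with hQ
  have hQ0 : 0 ≤ Q := Finset.sum_nonneg (fun b _ => sq_nonneg _)
  have hest : ∀ b, |phi (uu (fun b => (1 / 1000) * x b)).1 b - (1 / 1000) * x b| ≤
      96 * (1 / 1000) ^ 2 * Q := by
    intro b
    have h1 := phi_est (fun b => (1 / 1000) * x b) (by rw [hsum]; linarith) b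
    rw [hsum] at h1
    nlinarith
  have hb : ∀ b, (1 / 1000) * (x b) ^ 2 - 96 * (1 / 1000) ^ 2 * Q ≤
      x b * phi (uu (fun b => (1 / 1000) * x b)).1 b := by
    intro b
    have h1 := hest b
    have h2 := hx b
    have h3 : |x b * (phi (uu (fun b => (1 / 1000) * x b)).1 b - (1 / 1000) * x b)| ≤
        1 * (96 * (1 / 1000) ^ 2 * Q) := by
      rw [abs_mul]
      exact mul_le_mul h2 h1 (abs_nonneg _) (by norm_num)
    have h4 := (abs_le.mp h3).1
    nlinarith
  have hfin := Finset.sum_le_sum (s := (Finset.univ : Finset (Fin 8))) (fun b _ => hb b)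
  rw [Finset.sum_sub_distrib, ← Finset.mul_sum, Finset.sum_const, Finset.card_univ,
    Fintype.card_fin] at hfin
  rw [← hQ] at hfin
  refine le_trans ?_ hfin
  rw [nsmul_eq_mul]
  push_cast
  nlinarith

end Pool.Agent.Lib.MP_71c9ee_al
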